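import Pool.Agent.Helper8.TNG.Stmts

/-!
# Row GL: gluing a letter behind another one
-/

namespace Pool.Agent.Helper8.TNG

section

variable {α : Type} [DecidableEq α]

/-- Insert `q` behind `p`. -/
def GL_g (p q : α) (v : List α) : List α :=
  v.takeWhile (fun r => decide (r ≠ p)) ++
    p :: q :: (v.dropWhile (fun r => decide (r ≠ p))).tail

theorem GL_g_append (p q : α) (u v : List α) (hp : p ∉ u) :
    GL_g p q (u ++ p :: v) = u ++ p :: q :: v := by
  have h1 : ∀ r ∈ u, decide (r ≠ p) = true := by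
    intro r hr
    rw [decide_eq_true_iff]
    rintro rfl
    exact hp hr
  unfold GL_g
  rw [List.takeWhile_append_of_pos h1, List.dropWhile_append_of_pos h1]
  simp

theorem GL_erase (p q : α) (hpq : p ≠ q) (u v : List α) (hq : q ∉ u) :
    (u ++ p :: q :: v).erase q = u ++ p :: v := by
  rw [List.erase_append_right _ hq, List.erase_cons_tail (by simpa using hpq),
    List.erase_cons_head]

theorem GL_card (hw : ST_WC) (S : Finset α) (p q : α) (Q : List α → Prop) (hp : p ∈ S)
    (hq : q ∈ S) (hpq : p ≠ q) [DecidablePred fun w => Adj p q w ∧ Q (w.erase q)]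
    [DecidablePred Q] :
    ((Wd S).filter (fun w => Adj p q w ∧ Q (w.erase q))).card =
      ((Wd (S.erase q)).filter Q).card := by
  refine Finset.card_bij' (fun w _ => w.erase q) (fun v _ => GL_g p q v) ?_ ?_ ?_ ?_
  · intro w hwS
    rw [Finset.mem_filter] at hwS
    obtain ⟨h1, -, h3⟩ := hwS
    rw [(hw α S).1] at h1
    rw [Finset.mem_filter, (hw α _).1]
    refine ⟨⟨h1.1.erase q, ?_⟩, h3⟩
    intro r
    rw [h1.1.mem_erase_iff, h1.2, Finset.mem_erase]
  · intro v hv
    rw [Finset.mem_filter, (hw α _).1] at hv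
    obtain ⟨⟨h1, h2⟩, h3⟩ := hv
    have hpv : p ∈ v := (h2 p).2 (Finset.mem_erase.2 ⟨hpq, hp⟩)
    have hqv : q ∉ v := fun h => (Finset.mem_erase.1 ((h2 q).1 h)).1 rfl
    obtain ⟨u, v', rfl⟩ := List.append_of_mem hpv
    have h4 : p ∉ u := by
      intro h
      have := (List.nodup_append.1 h1).2.2 p h p (by simp)
      exact this rfl
    have hqu : q ∉ u := fun h => hqv (List.mem_append_left _ h)
    rw [GL_g_append p q u v' h4, Finset.mem_filter, (hw α _).1, GL_erase p q hpq u v' hqu]
    have hperm : (u ++ p :: q :: v').Perm (q :: (u ++ p :: v')) := by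
      have e1 : u ++ p :: q :: v' = (u ++ [p]) ++ q :: v' := by simp
      have e2 : q :: (u ++ p :: v') = q :: ((u ++ [p]) ++ v') := by simp
      rw [e1, e2]
      exact List.perm_middle
    refine ⟨⟨?_, ?_⟩, ⟨u, v', rfl⟩, h3⟩
    · rw [hperm.nodup_iff, List.nodup_cons]
      exact ⟨hqv, h1⟩
    · intro r
      rw [hperm.mem_iff, List.mem_cons, h2, Finset.mem_erase]
      constructor
      · rintro (rfl | h)
        · exact hq
        · exact h.2
      · intro h
        by_cases hr : r = q
        · exact Or.inl hr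
        · exact Or.inr ⟨hr, h⟩
  · intro w hwS
    rw [Finset.mem_filter, (hw α S).1] at hwS
    obtain ⟨⟨h1, -⟩, ⟨u, v, rfl⟩, -⟩ := hwS
    have hqu : q ∉ u := by
      intro h
      exact (List.nodup_append.1 h1).2.2 q h q (by simp) rfl
    have hpu : p ∉ u := by
      intro h
      exact (List.nodup_append.1 h1).2.2 p h p (by simp) rfl
    change GL_g p q ((u ++ p :: q :: v).erase q) = _
    rw [GL_erase p q hpq u v hqu, GL_g_append p q u v hpu]
  · intro v hv
    rw [Finset.mem_filter, (hw α _).1] at hv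
    obtain ⟨⟨h1, h2⟩, -⟩ := hv
    have hpv : p ∈ v := (h2 p).2 (Finset.mem_erase.2 ⟨hpq, hp⟩)
    have hqv : q ∉ v := fun h => (Finset.mem_erase.1 ((h2 q).1 h)).1 rfl
    obtain ⟨u, v', rfl⟩ := List.append_of_mem hpv
    have h4 : p ∉ u := by
      intro h
      exact (List.nodup_append.1 h1).2.2 p h p (by simp) rfl
    have hqu : q ∉ u := fun h => hqv (List.mem_append_left _ h)
    change (GL_g p q (u ++ p :: v')).erase q = _
    rw [GL_g_append p q u v' h4, GL_erase p q hpq u v' hqu]

end

theorem st_GL (hw : ST_WC) : ST_GL := by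
  intro α _ S p q Q hp hq hpq
  unfold pr
  rw [@GL_card α _ hw S p q Q hp hq hpq (fun _ => Classical.propDecidable _)
    (fun _ => Classical.propDecidable _), Finset.card_erase_of_mem hq]
  have h0 : 0 < S.card := Finset.card_pos.2 ⟨p, hp⟩
  have h1 : (S.card.factorial : ℝ) = (S.card : ℝ) * ((S.card - 1).factorial : ℝ) := by
    rw [← Nat.cast_mul, Nat.mul_factorial_pred h0.ne']
  have h2 : (S.card : ℝ) ≠ 0 := by
    rw [Nat.cast_ne_zero]
    exact h0.ne'
  have h3 : ((S.card - 1).factorial : ℝ) ≠ 0 := by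
    rw [Nat.cast_ne_zero]
    exact Nat.factorial_ne_zero _
  rw [h1]
  field_simp

end Pool.Agent.Helper8.TNG
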