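import Pool.Agent.Helper8.TNG.Stmts

/-!
# Row N1: words with at least one empty gap
-/

namespace Pool.Agent.Helper8.TNG

theorem N1_pos {α : Type} (F : α → Bool) : ∀ w : List α, 1 ≤ nE F w →
    (∃ p, F p = false ∧ ∃ u, w = u ++ [p]) ∨ (∃ p q, F p = false ∧ F q = false ∧ Adj p q w)
  | [], h => by simp [nE] at h
  | [p], h => by
    left
    refine ⟨p, ?_, [], rfl⟩
    by_contra hc
    have hc' : F p = true := by simpa using hc
    simp [nE, hc'] at h
  | p :: q :: w, h => by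
    by_cases hpq : F p = false ∧ F q = false
    · exact Or.inr ⟨p, q, hpq.1, hpq.2, [], w, rfl⟩
    · have h1 : 1 ≤ nE F (q :: w) := by
        rw [nE, if_neg hpq, Nat.zero_add] at h
        exact h
      rcases N1_pos F (q :: w) h1 with ⟨r, hr, u, hu⟩ | ⟨r, s, hr, hs, u, v, huv⟩
      · exact Or.inl ⟨r, hr, p :: u, by rw [hu]; rfl⟩
      · exact Or.inr ⟨r, s, hr, hs, p :: u, v, by rw [huv]; rfl⟩

theorem st_N1 (hw : ST_WC) (hb : ST_PB) (hu : ST_PU) (hg : ST_GL) (hl : ST_LS) : ST_N1 := by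
  intro α _ S F hS
  set T := S.filter (fun p => F p = false) with hT
  have hS0 : (0 : ℝ) < S.card := by exact_mod_cast hS
  have h1 : pr S (fun w => 1 ≤ nE F w) ≤
      pr S (fun w => (∃ p ∈ T, ∃ u, w = u ++ [p]) ∨ (∃ x ∈ T.offDiag, Adj x.1 x.2 w)) := by
    refine (hb α S _ _).2.2.1 ?_
    intro w hwS hn
    rw [(hw α S).1] at hwS
    rcases N1_pos F w hn with ⟨p, hp, u, huw⟩ | ⟨p, q, hp, hq, u, v, huv⟩
    · left
      refine ⟨p, ?_, u, huw⟩
      rw [hT, Finset.mem_filter]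
      refine ⟨(hwS.2 p).1 ?_, hp⟩
      rw [huw]
      simp
    · right
      refine ⟨(p, q), ?_, u, v, huv⟩
      have hpS : p ∈ S := (hwS.2 p).1 (by rw [huv]; simp)
      have hqS : q ∈ S := (hwS.2 q).1 (by rw [huv]; simp)
      rw [Finset.mem_offDiag, hT, Finset.mem_filter, Finset.mem_filter]
      refine ⟨⟨hpS, hp⟩, ⟨hqS, hq⟩, ?_⟩
      rintro (h : p = q)
      have h2 := hwS.1
      rw [huv, h] at h2
      have h3 := (List.nodup_append.1 h2).2.1
      simp at h3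
  have h2 : pr S (fun w => (∃ p ∈ T, ∃ u, w = u ++ [p]) ∨ (∃ x ∈ T.offDiag, Adj x.1 x.2 w)) ≤
      pr S (fun w => ∃ p ∈ T, ∃ u, w = u ++ [p]) +
        pr S (fun w => ∃ x ∈ T.offDiag, Adj x.1 x.2 w) := (hb α S _ _).2.2.2.2.2.1
  have h3 : pr S (fun w => ∃ p ∈ T, ∃ u, w = u ++ [p]) ≤ (T.card : ℝ) * (1 / (S.card : ℝ)) := by
    refine ((hu α α S T (fun p w => ∃ u, w = u ++ [p])).1).trans ?_
    rw [← nsmul_eq_mul]
    refine Finset.sum_le_card_nsmul T _ _ ?_
    intro p hp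
    rw [hT, Finset.mem_filter] at hp
    exact (hl α S p hp.1).le
  have h4 : pr S (fun w => ∃ x ∈ T.offDiag, Adj x.1 x.2 w) ≤
      (T.offDiag.card : ℝ) * (1 / (S.card : ℝ)) := by
    refine ((hu α (α × α) S T.offDiag (fun x w => Adj x.1 x.2 w)).1).trans ?_
    rw [← nsmul_eq_mul]
    refine Finset.sum_le_card_nsmul _ _ _ ?_
    rintro ⟨p, q⟩ hx
    rw [Finset.mem_offDiag, hT, Finset.mem_filter, Finset.mem_filter] at hx
    have h5 := hg α S p q (fun _ => True) hx.1.1 hx.2.1.1 hx.2.2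
    have h6 : pr S (fun w => Adj p q w) = pr S (fun w => Adj p q w ∧ True) := by
      simp
    have h7 : pr (S.erase q) (fun _ => True) ≤ 1 := (hb α _ _ (fun _ => True)).2.1
    change pr S (fun w => Adj p q w) ≤ _
    rw [h6, h5]
    exact (mul_le_mul_of_nonneg_left h7 (by positivity)).trans (mul_one _).le
  have h5 : (T.offDiag.card : ℝ) = (T.card : ℝ) * T.card - T.card := by
    rw [Finset.offDiag_card, Nat.cast_sub (Nat.le_mul_self _), Nat.cast_mul]
  rw [h5] at h4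
  refine (h1.trans (h2.trans (add_le_add h3 h4))).trans ?_
  apply le_of_eq
  field_simp
  ring

end Pool.Agent.Helper8.TNG
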