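import Pool.Agent.Helper8.TNG.Stmts

/-!
# Row TGL: a criterion for tangled labelings
-/

namespace Pool.Agent.Helper8.TNG

theorem TGL_iter_perm (hp : ST_PRP) {α : Type} (lt : α → α → Bool) (k : ℕ) (W : List α) :
    ((promW lt)^[k] W).Perm W := by
  induction k with
  | zero => exact List.Perm.refl _
  | succ k ih =>
    rw [Function.iterate_succ_apply']
    exact (hp α lt _).trans ih

theorem TGL_iter_promote (hm : ST_PRM) (hp : ST_PRP) {P : Type} [Fintype P] [DecidableEq P]
    [PartialOrder P] (lt : P → P → Bool) (hlt : ∀ p q, lt p q = true ↔ p < q) (W : List P)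
    (hn : W.Nodup) (ha : ∀ p, p ∈ W) (k : ℕ) :
    promote^[k] (lab W) = lab ((promW lt)^[k] W) := by
  induction k with
  | zero => rfl
  | succ k ih =>
    rw [Function.iterate_succ_apply', Function.iterate_succ_apply', ih]
    have h1 := TGL_iter_perm hp lt k W
    exact hm P lt hlt _ (h1.nodup_iff.2 hn) (fun p => h1.mem_iff.2 (ha p))

theorem TGL_outc_min {α : Type} (lt : α → α → Bool) (u : α) (h : ∀ r, lt r u = false)
    (s : List α) : outc lt s u = u := by
  induction s with
  | nil => rfl
  | cons r s ih =>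
    simp [outc, h r, ih]

theorem TGL_sufUp_mono {α : Type} (lt : α → α → Bool) {k m : ℕ} (h : k ≤ m) {W : List α}
    (hW : SufUp lt m W) : SufUp lt k W :=
  fun u v huv hv => hW u v huv (hv.trans h)

theorem TGL_sufUp_iter (hf : ST_FRZ) {α : Type} (lt : α → α → Bool)
    (hirr : ∀ p, lt p p = false)
    (htr : ∀ p q r, lt p q = true → lt q r = true → lt p r = true) (k j : ℕ) (W : List α)
    (hW : SufUp lt j W) : SufUp lt (j + k) ((promW lt)^[k] W) := by
  induction k with
  | zero => exact hW
  | succ k ih =>
    rw [Function.iterate_succ_apply']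
    exact hf α lt hirr htr _ _ ih

theorem TGL_labeling {P : Type} [Fintype P] [DecidableEq P] (W : List P) (hn : W.Nodup)
    (ha : ∀ p, p ∈ W) : Set.BijOn (lab W) Set.univ (Set.Icc 1 (Fintype.card P)) := by
  have hlen : W.length = Fintype.card P := by
    rw [← List.toFinset_card_of_nodup hn, Finset.card_eq_iff_eq_univ]
    ext p
    simp [ha p]
  refine ⟨?_, ?_, ?_⟩
  · intro p _
    have h1 : W.idxOf p < W.length := List.idxOf_lt_length_iff.2 (ha p)
    refine ⟨?_, ?_⟩
    · unfold lab
      omega
    · unfold lab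
      omega
  · intro p _ q _ hpq
    unfold lab at hpq
    exact (List.idxOf_inj (ha p)).1 (by omega)
  · rintro k ⟨hk1, hk2⟩
    have h1 : k - 1 < W.length := by omega
    refine ⟨W[k - 1], Set.mem_univ _, ?_⟩
    unfold lab
    rw [List.Nodup.idxOf_getElem hn]
    omega

theorem st_TGL (hm : ST_PRM) (hp : ST_PRP) (hf : ST_FRZ) (hl : ST_LEX) (hr : ST_REG) :
    ST_TGL := by
  intro P _ _ _ lt hlt w l u hn ha hu hul
  have hirr : ∀ p, lt p p = false := by
    intro p
    rw [Bool.eq_false_iff]
    intro h
    exact lt_irrefl p ((hlt p p).1 h)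
  have htr : ∀ p q r, lt p q = true → lt q r = true → lt p r = true := by
    intro p q r h1 h2
    exact (hlt p r).2 (lt_trans ((hlt p q).1 h1) ((hlt q r).1 h2))
  have hlen : (w ++ [l, u]).length = Fintype.card P := by
    rw [← List.toFinset_card_of_nodup hn, Finset.card_eq_iff_eq_univ]
    ext p
    simp only [List.mem_toFinset, Finset.mem_univ, iff_true]
    exact ha p
  have hlen' : w.length + 2 = Fintype.card P := by
    rw [← hlen]
    simp
  refine ⟨TGL_labeling _ hn ha, ?_, ?_⟩
  · change IsLinExt (promote^[Fintype.card P - 1] (lab (w ++ [l, u])))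
    rw [TGL_iter_promote hm hp lt hlt _ hn ha]
    have h1 := TGL_iter_perm hp lt (Fintype.card P - 1) (w ++ [l, u])
    rw [hl P lt hlt _ (h1.nodup_iff.2 hn) (fun p => h1.mem_iff.2 (ha p))]
    have h0 : SufUp lt 0 (w ++ [l, u]) := by
      intro a v _ hv p hp'
      have hv0 : v = [] := List.length_eq_zero_iff.1 (Nat.le_zero.1 hv)
      rw [hv0] at hp'
      exact absurd hp' List.not_mem_nil
    have h2 := TGL_sufUp_iter hf lt hirr htr (Fintype.card P - 1) 0 _ h0
    rwa [Nat.zero_add] at h2
  · intro k hk
    change IsLinExt (promote^[k] (lab (w ++ [l, u]))) at hk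
    by_contra hc
    have hkn : k ≤ w.length := by omega
    rw [TGL_iter_promote hm hp lt hlt _ hn ha] at hk
    have h1 := TGL_iter_perm hp lt k (w ++ [l, u])
    rw [hl P lt hlt _ (h1.nodup_iff.2 hn) (fun p => h1.mem_iff.2 (ha p))] at hk
    have h2 := TGL_sufUp_iter hf lt hirr htr (w.length - k) _ _ hk
    rw [← Function.iterate_add_apply, Nat.sub_add_cancel hkn] at h2
    have h3 := TGL_sufUp_mono lt (Nat.le_add_right _ _) h2
    obtain ⟨tail, ht⟩ := hr P lt w [l, u]
    have h4 := (TGL_iter_perm hp lt w.length (w ++ [l, u])).length_eq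
    rw [ht] at h3 h4
    have humin : ∀ r, lt r u = false := by
      intro r
      rw [Bool.eq_false_iff]
      intro h
      have h5 := (hlt r u).1 h
      exact absurd (hu h5.le) (not_le_of_gt h5)
    have h5 : outs lt (state lt w) [l, u] ++ tail =
        [outc lt (state lt w) l] ++ (u :: tail) := by
      simp [outs, TGL_outc_min lt u humin]
    rw [h5] at h3 h4
    have h6 := h3 [outc lt (state lt w) l] (u :: tail) rfl (by
      rw [hlen] at h4
      simp only [List.length_append, List.length_cons, List.length_nil] at h4 ⊢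
      omega) u (by simp) (outc lt (state lt w) l) (by simp)
    rw [(hlt _ _).2 hul] at h6
    exact Bool.noConfusion h6

end Pool.Agent.Helper8.TNG
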